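import Pool.Agent.Helper6.NX.GoalsB

set_option autoImplicit false

/-! Packet NX-S2B (MP_75608d_al). -/

open Pool.Agent.Helper6.NX

namespace Pool.Agent.Helper55.NX

theorem s2b_max {a b : ℝ} (ha : 0 ≤ a) (hb : 0 ≤ b) :
    max (a + b - 1) 0 ≤ min a 1 * min b 1 + max (a - 1) 0 + max (b - 1) 0 := by
  rcases le_total a 1 with h1 | h1 <;> rcases le_total b 1 with h2 | h2
  · rw [min_eq_left h1, min_eq_left h2, max_eq_right (by linarith : a - 1 ≤ 0),
      max_eq_right (by linarith : b - 1 ≤ 0)]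
    refine max_le ?_ ?_
    · nlinarith [mul_nonneg (sub_nonneg.2 h1) (sub_nonneg.2 h2)]
    · nlinarith [mul_nonneg ha hb]
  · rw [min_eq_left h1, min_eq_right h2, max_eq_right (by linarith : a - 1 ≤ 0),
      max_eq_left (by linarith : 0 ≤ b - 1)]
    refine max_le ?_ ?_ <;> linarith
  · rw [min_eq_right h1, min_eq_left h2, max_eq_left (by linarith : 0 ≤ a - 1),
      max_eq_right (by linarith : b - 1 ≤ 0)]
    refine max_le ?_ ?_ <;> linarith
  · rw [min_eq_right h1, min_eq_right h2, max_eq_left (by linarith : 0 ≤ a - 1),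
      max_eq_left (by linarith : 0 ≤ b - 1)]
    refine max_le ?_ ?_ <;> linarith

theorem s2b_pt {L s : ℝ} (hL : 1 ≤ L) (hs : 0 ≤ s) :
    Real.log (1 + 32 * Real.exp (L * (s - 1))) ≤
      L * (max (s - 1) 0 + Real.log 33 / L * (4 * s) + 32 * Real.exp (-(L / 2))) := by
  have hL0 : 0 < L := by linarith
  have hlog33 : 0 < Real.log 33 := Real.log_pos (by norm_num)
  have hE : 0 < Real.exp (-(L / 2)) := Real.exp_pos _
  have e1 : L * (max (s - 1) 0 + Real.log 33 / L * (4 * s) + 32 * Real.exp (-(L / 2))) =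
      L * max (s - 1) 0 + Real.log 33 * (4 * s) + L * (32 * Real.exp (-(L / 2))) := by
    field_simp
  rw [e1]
  have hEL : 0 ≤ L * (32 * Real.exp (-(L / 2))) := by positivity
  rcases le_total 1 s with h1 | h1
  · have hx : 1 ≤ Real.exp (L * (s - 1)) := Real.one_le_exp (mul_nonneg hL0.le (by linarith))
    have h2 : Real.log (1 + 32 * Real.exp (L * (s - 1))) ≤
        Real.log (33 * Real.exp (L * (s - 1))) :=
      Real.log_le_log (by positivity) (by linarith)
    rw [Real.log_mul (by norm_num) (Real.exp_pos _).ne', Real.log_exp] at h2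
    rw [max_eq_left (by linarith : 0 ≤ s - 1)]
    have h3 : Real.log 33 ≤ Real.log 33 * (4 * s) := by nlinarith
    linarith
  · rw [max_eq_right (by linarith : s - 1 ≤ 0), mul_zero, zero_add]
    rcases le_total s (1 / 2) with h2 | h2
    · have h3 : Real.log (1 + 32 * Real.exp (L * (s - 1))) ≤ 32 * Real.exp (L * (s - 1)) := by
        have := Real.log_le_sub_one_of_pos (by positivity : 0 < 1 + 32 * Real.exp (L * (s - 1)))
        linarith
      have h4 : Real.exp (L * (s - 1)) ≤ Real.exp (-(L / 2)) := by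
        refine Real.exp_le_exp.2 ?_
        nlinarith
      have h5 : 32 * Real.exp (-(L / 2)) ≤ L * (32 * Real.exp (-(L / 2))) := by
        nlinarith
      have h6 : 0 ≤ Real.log 33 * (4 * s) := by positivity
      linarith
    · have hx : Real.exp (L * (s - 1)) ≤ 1 := by
        rw [Real.exp_le_one_iff]
        nlinarith
      have h3 : Real.log (1 + 32 * Real.exp (L * (s - 1))) ≤ Real.log 33 :=
        Real.log_le_log (by positivity) (by linarith)
      have h4 : Real.log 33 ≤ Real.log 33 * (4 * s) := by nlinarith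
      linarith

theorem s2b_sum {Ω : Type} [Fintype Ω] (P f g : Ω → ℝ) :
    ∑ ω, ∑ ω', P ω * P ω' * (f ω * g ω') = (∑ ω, P ω * f ω) * ∑ ω, P ω * g ω := by
  rw [Finset.sum_mul_sum]
  refine Finset.sum_congr rfl fun ω _ => Finset.sum_congr rfl fun ω' _ => by ring

theorem thmS2B : S_S2B := by
  intro Ω _ P ι L v e hP hι hL hv he
  obtain ⟨hP0, hP1⟩ := hP
  have hL0 : 0 < L := by linarith
  have hlog33 : 0 < Real.log 33 := Real.log_pos (by norm_num)
  set M : Ω → ℝ := fun ω => min (ι ω) 1 with hM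
  set X : Ω → ℝ := fun ω => max (ι ω - 1) 0 with hX
  have hpt : ∀ ω ω', P ω * P ω' * Real.log (1 + 32 * Real.exp (L * (ι ω + ι ω' - 1))) ≤
      L * (P ω * P ω' * (M ω * M ω') + P ω * P ω' * (X ω * 1) + P ω * P ω' * (1 * X ω') +
        Real.log 33 / L * 4 * (P ω * P ω' * (ι ω * 1)) +
        Real.log 33 / L * 4 * (P ω * P ω' * (1 * ι ω')) +
        32 * Real.exp (-(L / 2)) * (P ω * P ω' * (1 * 1))) := by
    intro ω ω'
    have hPP : 0 ≤ P ω * P ω' := mul_nonneg (hP0 ω) (hP0 ω')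
    have h1 := s2b_pt hL (add_nonneg (hι ω) (hι ω'))
    have h2 := s2b_max (hι ω) (hι ω')
    have h3 : Real.log (1 + 32 * Real.exp (L * (ι ω + ι ω' - 1))) ≤
        L * ((min (ι ω) 1 * min (ι ω') 1 + max (ι ω - 1) 0 + max (ι ω' - 1) 0) +
          Real.log 33 / L * (4 * (ι ω + ι ω')) + 32 * Real.exp (-(L / 2))) := by
      refine h1.trans (mul_le_mul_of_nonneg_left ?_ hL0.le)
      linarith
    refine (mul_le_mul_of_nonneg_left h3 hPP).trans (le_of_eq ?_)
    rw [hM, hX]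
    ring
  have hsum : ∑ ω, ∑ ω', P ω * P ω' * Real.log (1 + 32 * Real.exp (L * (ι ω + ι ω' - 1))) ≤
      L * ((∑ ω, P ω * M ω) * (∑ ω, P ω * M ω) + (∑ ω, P ω * X ω) * (∑ ω, P ω * 1) +
        (∑ ω, P ω * 1) * (∑ ω, P ω * X ω) +
        Real.log 33 / L * 4 * ((∑ ω, P ω * ι ω) * (∑ ω, P ω * 1)) +
        Real.log 33 / L * 4 * ((∑ ω, P ω * 1) * (∑ ω, P ω * ι ω)) +
        32 * Real.exp (-(L / 2)) * ((∑ ω, P ω * 1) * (∑ ω, P ω * 1))) := by
    refine (Finset.sum_le_sum fun ω _ => Finset.sum_le_sum fun ω' _ => hpt ω ω').trans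
      (le_of_eq ?_)
    rw [← s2b_sum P M M, ← s2b_sum P X (fun _ => 1), ← s2b_sum P (fun _ => 1) X,
      ← s2b_sum P ι (fun _ => 1), ← s2b_sum P (fun _ => 1) ι,
      ← s2b_sum P (fun _ => 1) (fun _ => 1)]
    simp only [Finset.mul_sum, Finset.sum_add_distrib, mul_add]
  have hPone : ∑ ω, P ω * 1 = 1 := by simpa using hP1
  rw [hPone, hv] at hsum
  have hM0 : 0 ≤ ∑ ω, P ω * M ω :=
    Finset.sum_nonneg fun ω _ => mul_nonneg (hP0 ω) (le_min (hι ω) zero_le_one)
  have hMv : ∑ ω, P ω * M ω ≤ v := by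
    rw [← hv]
    exact Finset.sum_le_sum fun ω _ => mul_le_mul_of_nonneg_left (min_le_left _ _) (hP0 ω)
  have hXe : ∑ ω, P ω * X ω ≤ e := he
  have hMM : (∑ ω, P ω * M ω) * (∑ ω, P ω * M ω) ≤ v ^ 2 := by nlinarith
  rw [div_le_iff₀ hL0]
  refine hsum.trans ?_
  have e1 : (v ^ 2 + 2 * e + 8 * v * Real.log 33 / L + 32 * Real.exp (-(L / 2))) * L =
      L * (v ^ 2 + e + e + Real.log 33 / L * 4 * v + Real.log 33 / L * 4 * v +
        32 * Real.exp (-(L / 2))) := by
    ring
  rw [e1]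
  refine mul_le_mul_of_nonneg_left ?_ hL0.le
  linarith

end Pool.Agent.Helper55.NX
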